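import Mathlib

/-!
Irreducible polynomials with all coefficients `1` or `-1` and two close real roots.
-/

set_option autoImplicit false

open Polynomial

namespace Pool.Agent.Helper181_Sep

/-- A polynomial of degree `27` with coefficients `1` and `-1` and a double root in `(0, 1)`. -/
noncomputable def N : ℤ[X] := 1 - X - X ^ 2 + X ^ 3 - X ^ 4 + X ^ 5 - X ^ 6 + X ^ 7 - X ^ 8 - X ^ 9 +
  X ^ 10 + X ^ 11 + X ^ 12 + X ^ 13 + X ^ 14 + X ^ 15 + X ^ 16 + X ^ 17 - X ^ 18 - X ^ 19 - X ^ 20 +
  X ^ 21 + X ^ 22 - X ^ 23 - X ^ 24 - X ^ 25 - X ^ 26 - X ^ 27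

/-- The last four terms. -/
noncomputable def M : ℤ[X] := X ^ 3 - X ^ 2 - X - 1

lemma N_eq : N = (X ^ 3 + X ^ 2 - 1) ^ 2 * ((1 - X) * (1 + X ^ 2 + 2 * X ^ 3 + 4 * X ^ 5 + X ^ 6 +
    4 * X ^ 7 + 4 * X ^ 8 + 2 * X ^ 9 + 6 * X ^ 10 + 2 * X ^ 11 + 4 * X ^ 12 + 4 * X ^ 13 + X ^ 14 +
    4 * X ^ 15 + X ^ 16 + 2 * X ^ 17 + 2 * X ^ 18 + X ^ 20)) := by
  unfold N; ring

lemma N_two : N * (X - 1) = X ^ 28 - 1 + 2 * (X - X ^ 3 + X ^ 4 - X ^ 5 + X ^ 6 - X ^ 7 + X ^ 8 -
    X ^ 10 + X ^ 18 - X ^ 21 + X ^ 23 - X ^ 28) := by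
  unfold N; ring

lemma M_two : M * (X - 1) = X ^ 4 - 1 + 2 * (1 - X ^ 3) := by
  unfold M; ring

lemma N_natDegree : N.natDegree ≤ 27 := by
  unfold N; compute_degree

lemma N_coeff (i : ℕ) : |N.coeff i| ≤ 1 := by
  rcases Nat.lt_or_ge 27 i with h | h
  · rw [coeff_eq_zero_of_natDegree_lt (lt_of_le_of_lt N_natDegree h)]; simp
  · unfold N
    simp only [coeff_add, coeff_sub, coeff_X_pow, coeff_X, coeff_one]
    interval_cases i <;> norm_num

lemma M_coeff (i : ℕ) : |M.coeff i| ≤ 1 := by
  rcases Nat.lt_or_ge 3 i with h | h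
  · have h1 : M.natDegree ≤ 3 := by unfold M; compute_degree
    rw [coeff_eq_zero_of_natDegree_lt (lt_of_le_of_lt h1 h)]; simp
  · unfold M
    simp only [coeff_sub, coeff_X_pow, coeff_X, coeff_one]
    interval_cases i <;> norm_num

lemma M_monic : M.Monic := by
  unfold M; monicity!

lemma M_natDegree : M.natDegree = 3 := by
  unfold M; compute_degree!

/-- `q` copies of `N`. -/
noncomputable def P : ℕ → ℤ[X]
  | 0 => 0
  | q + 1 => P q + X ^ (28 * q) * N

lemma P_zero_of_le (q i : ℕ) (h : 28 * q ≤ i) : (P q).coeff i = 0 := by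
  induction q generalizing i with
  | zero => simp [P]
  | succ q ih =>
    rw [P, coeff_add, ih i (by omega), coeff_X_pow_mul', if_pos (by omega),
      coeff_eq_zero_of_natDegree_lt (lt_of_le_of_lt N_natDegree (by omega)), add_zero]

lemma P_coeff (q i : ℕ) : |(P q).coeff i| ≤ 1 := by
  induction q generalizing i with
  | zero => simp [P]
  | succ q ih =>
    rw [P, coeff_add, coeff_X_pow_mul']
    split_ifs with h
    · rw [P_zero_of_le q i h, zero_add]; exact N_coeff _
    · rw [add_zero]; exact ih i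

/-- The polynomial of degree `28 q + 3`. -/
noncomputable def G (q : ℕ) : ℤ[X] := X ^ (28 * q) * M + P q

lemma G_coeff (q i : ℕ) : |(G q).coeff i| ≤ 1 := by
  rw [G, coeff_add, coeff_X_pow_mul']
  split_ifs with h
  · rw [P_zero_of_le q i h, add_zero]; exact M_coeff _
  · rw [zero_add]; exact P_coeff q i

lemma XM_natDegree (q : ℕ) : (X ^ (28 * q) * M).natDegree = 28 * q + 3 := by
  rw [(monic_X_pow (28 * q)).natDegree_mul M_monic, natDegree_X_pow, M_natDegree]

lemma P_degree (q : ℕ) : (P q).degree < (X ^ (28 * q) * M).degree := by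
  rw [degree_eq_natDegree ((monic_X_pow (28 * q)).mul M_monic).ne_zero, XM_natDegree,
    degree_lt_iff_coeff_zero]
  intro m hm
  exact P_zero_of_le q m (by omega)

lemma G_monic (q : ℕ) : (G q).Monic :=
  ((monic_X_pow (28 * q)).mul M_monic).add_of_left (P_degree q)

lemma G_natDegree (q : ℕ) : (G q).natDegree = 28 * q + 3 := by
  have h1 : (G q).degree = (X ^ (28 * q) * M).degree := degree_add_eq_left_of_degree_lt (P_degree q)
  rw [natDegree_eq_of_degree_eq h1, XM_natDegree]

lemma two_zero : (2 : (ZMod 2)[X]) = 0 := by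
  have h : ((2 : ℕ) : (ZMod 2)[X]) = 0 := CharP.cast_eq_zero _ 2
  exact_mod_cast h

lemma N_mod : N.map (Int.castRingHom (ZMod 2)) * (X - 1) = X ^ 28 - 1 := by
  have h := congrArg (Polynomial.map (Int.castRingHom (ZMod 2))) N_two
  rw [Polynomial.map_mul, Polynomial.map_add, Polynomial.map_mul] at h
  simp only [Polynomial.map_sub, map_X, Polynomial.map_one, Polynomial.map_pow,
    Polynomial.map_ofNat] at h
  rw [h, two_zero, zero_mul, add_zero]

lemma M_mod : M.map (Int.castRingHom (ZMod 2)) * (X - 1) = X ^ 4 - 1 := by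
  have h := congrArg (Polynomial.map (Int.castRingHom (ZMod 2))) M_two
  rw [Polynomial.map_mul, Polynomial.map_add, Polynomial.map_mul] at h
  simp only [Polynomial.map_sub, map_X, Polynomial.map_one, Polynomial.map_pow,
    Polynomial.map_ofNat] at h
  rw [h, two_zero, zero_mul, add_zero]

lemma P_mod (q : ℕ) : (P q).map (Int.castRingHom (ZMod 2)) * (X - 1) = X ^ (28 * q) - 1 := by
  induction q with
  | zero => simp [P]
  | succ q ih =>
    rw [P, Polynomial.map_add, add_mul, ih, Polynomial.map_mul, mul_assoc, N_mod,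
      Polynomial.map_pow, map_X]
    ring

lemma G_mod (q k : ℕ) (h : 28 * q + 4 = 2 ^ k) :
    (G q).map (Int.castRingHom (ZMod 2)) = (X - 1) ^ (28 * q + 3) := by
  have h1 : (G q).map (Int.castRingHom (ZMod 2)) * (X - 1) = (X - 1) ^ (28 * q + 3) * (X - 1) := by
    rw [← pow_succ, show 28 * q + 3 + 1 = 2 ^ k by omega, sub_pow_char_pow, one_pow, ← h, G,
      Polynomial.map_add, add_mul, P_mod, Polynomial.map_mul, mul_assoc, M_mod,
      Polynomial.map_pow, map_X]
    ring
  exact mul_right_cancel₀ (X_sub_C_ne_zero (1 : ZMod 2)) (by simpa using h1)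

lemma P_eval_one (q : ℕ) : (P q).eval 1 = 0 := by
  induction q with
  | zero => simp [P]
  | succ q ih => rw [P, eval_add, ih, N]; simp

lemma G_eval_one (q : ℕ) : (G q).eval 1 = -2 := by
  rw [G, eval_add, P_eval_one, M]; simp

lemma G_irreducible (q k : ℕ) (h : 28 * q + 4 = 2 ^ k) : Irreducible (G q) := by
  have hm := G_monic q
  have hmc : ((G q).comp (X + C 1)).Monic := hm.comp_X_add_C 1
  have hdc : ((G q).comp (X + C 1)).natDegree = 28 * q + 3 := by
    rw [natDegree_comp, natDegree_X_add_C, mul_one, G_natDegree]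
  have hmod : ((G q).comp (X + C 1)).map (Int.castRingHom (ZMod 2)) = X ^ (28 * q + 3) := by
    rw [map_comp, G_mod q k h]
    simp
  have hirr : Irreducible ((G q).comp (X + C 1)) := by
    have hp : (Ideal.span {(2 : ℤ)}).IsPrime := by
      rw [Ideal.span_singleton_prime (by norm_num)]
      exact Int.prime_two
    apply irreducible_of_eisenstein_criterion hp
    · rw [hmc.leadingCoeff, Ideal.mem_span_singleton]
      norm_num
    · intro i hi
      rw [degree_eq_natDegree hmc.ne_zero, hdc] at hi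
      have hi' : i < 28 * q + 3 := by exact_mod_cast hi
      rw [Ideal.mem_span_singleton]
      have h2 : ((((G q).comp (X + C 1)).coeff i : ℤ) : ZMod 2) = 0 := by
        have h3 := congrArg (fun p => Polynomial.coeff p i) hmod
        simp only [coeff_map, coeff_X_pow, if_neg hi'.ne] at h3
        simpa using h3
      exact (ZMod.intCast_zmod_eq_zero_iff_dvd _ 2).1 h2
    · rw [degree_eq_natDegree hmc.ne_zero, hdc]
      exact_mod_cast (by omega : 0 < 28 * q + 3)
    · rw [coeff_zero_eq_eval_zero, eval_comp]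
      simp only [eval_add, eval_X, eval_C, zero_add]
      rw [G_eval_one, Ideal.span_singleton_pow, Ideal.mem_span_singleton]
      norm_num
    · exact hmc.isPrimitive
  have h5 : (algEquivAevalXAddC (1 : ℤ)) (G q) = (G q).comp (X + C 1) := by
    simp [algEquivAevalXAddC, comp, aeval_def]
  rw [← h5] at hirr
  exact (MulEquiv.irreducible_iff (algEquivAevalXAddC (1 : ℤ))).1 hirr

end Pool.Agent.Helper181_Sep
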