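import Mathlib

/-!
Two close real roots.
-/

set_option autoImplicit false

namespace Pool.Agent.Helper181_Sep

lemma mu_root : ∃ β : ℝ, 754 / 1000 ≤ β ∧ β ≤ 755 / 1000 ∧ β ^ 3 + β ^ 2 - 1 = 0 := by
  have h := intermediate_value_Icc (show (754 / 1000 : ℝ) ≤ 755 / 1000 by norm_num)
    (f := fun x : ℝ => x ^ 3 + x ^ 2 - 1) (by fun_prop)
  have h2 : (0 : ℝ) ∈ Set.Icc ((754 / 1000 : ℝ) ^ 3 + (754 / 1000 : ℝ) ^ 2 - 1)
      ((755 / 1000 : ℝ) ^ 3 + (755 / 1000 : ℝ) ^ 2 - 1) := by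
    constructor <;> norm_num
  obtain ⟨β, hβ, h3⟩ := h h2
  exact ⟨β, hβ.1, hβ.2, h3⟩

/-- The real function `x ^ n - c (x ^ 3 + x ^ 2 - 1) ^ 2 (x ^ 2 - x + 1)`. -/
def f (n : ℕ) (c x : ℝ) : ℝ := x ^ n - c * ((x ^ 3 + x ^ 2 - 1) ^ 2 * (x ^ 2 - x + 1))

lemma neg_of_dist (n : ℕ) (c β x δ : ℝ) (hc : 1 ≤ c) (hβ1 : 6 / 10 ≤ β)
    (hβ : β ^ 3 + β ^ 2 - 1 = 0) (hx0 : 6 / 10 ≤ x) (hx1 : x ≤ 7569 / 10000)
    (hd : (x - β) ^ 2 = δ ^ 2) (hδ : δ ^ 2 = (7569 / 10000) ^ n) : f n c x < 0 := by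
  unfold f
  have h1 : x ^ n ≤ (7569 / 10000) ^ n := pow_le_pow_left₀ (by linarith) hx1 n
  have h2 : x ^ 3 + x ^ 2 - 1 = (x - β) * (x ^ 2 + x * β + β ^ 2 + x + β) := by
    linear_combination hβ
  have h3 : 2 ≤ x ^ 2 + x * β + β ^ 2 + x + β := by nlinarith
  have h4 : 3 / 4 ≤ x ^ 2 - x + 1 := by nlinarith [sq_nonneg (x - 1 / 2)]
  have h5 : 4 * δ ^ 2 ≤ (x ^ 3 + x ^ 2 - 1) ^ 2 := by
    rw [h2, mul_pow, hd]
    have : (4 : ℝ) ≤ (x ^ 2 + x * β + β ^ 2 + x + β) ^ 2 := by nlinarith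
    nlinarith [sq_nonneg δ]
  have hδ0 : 0 < δ ^ 2 := by rw [hδ]; positivity
  have h6 : 3 * δ ^ 2 ≤ (x ^ 3 + x ^ 2 - 1) ^ 2 * (x ^ 2 - x + 1) := by
    calc 3 * δ ^ 2 = 4 * δ ^ 2 * (3 / 4) := by ring
      _ ≤ _ := mul_le_mul h5 h4 (by norm_num) (by positivity)
  have h7 : 3 * δ ^ 2 ≤ c * ((x ^ 3 + x ^ 2 - 1) ^ 2 * (x ^ 2 - x + 1)) := by
    refine h6.trans (le_mul_of_one_le_left ?_ hc)
    positivity
  rw [← hδ] at h1
  linarith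

lemma two_roots (n : ℕ) (hn : 50 ≤ n) (c : ℝ) (hc : 1 ≤ c) :
    ∃ x y : ℝ, x ≠ y ∧ f n c x = 0 ∧ f n c y = 0 ∧ |x - y| ≤ 2 * (87 / 100) ^ n := by
  obtain ⟨β, hβ1, hβ2, hβ⟩ := mu_root
  set δ : ℝ := (87 / 100) ^ n with hδ
  have hδ0 : 0 < δ := by positivity
  have hδ1 : δ ≤ 19 / 10000 := by
    calc δ ≤ (87 / 100) ^ 50 := pow_le_pow_of_le_one (by norm_num) (by norm_num) hn
      _ ≤ 19 / 10000 := by norm_num
  have hδ2 : δ ^ 2 = (7569 / 10000) ^ n := by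
    rw [hδ, ← pow_mul, mul_comm, pow_mul]; norm_num
  have hcont : Continuous (f n c) := by unfold f; fun_prop
  have hpos : 0 < f n c β := by
    unfold f
    rw [hβ]
    have : (0 : ℝ) < β ^ n := by positivity
    simpa using this
  have hneg1 : f n c (β - δ) < 0 :=
    neg_of_dist n c β (β - δ) δ hc (by linarith) hβ (by linarith) (by linarith)
      (by ring) hδ2
  have hneg2 : f n c (β + δ) < 0 :=
    neg_of_dist n c β (β + δ) δ hc (by linarith) hβ (by linarith) (by linarith)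
      (by ring) hδ2
  obtain ⟨x, hx, hx0⟩ := intermediate_value_Icc (show β - δ ≤ β by linarith)
    hcont.continuousOn (show (0 : ℝ) ∈ Set.Icc (f n c (β - δ)) (f n c β) from ⟨hneg1.le, hpos.le⟩)
  obtain ⟨y, hy, hy0⟩ := intermediate_value_Icc' (show β ≤ β + δ by linarith)
    hcont.continuousOn (show (0 : ℝ) ∈ Set.Icc (f n c (β + δ)) (f n c β) from ⟨hneg2.le, hpos.le⟩)
  refine ⟨x, y, ?_, hx0, hy0, ?_⟩
  · intro h
    have h1 : x = β := le_antisymm hx.2 (h ▸ hy.1)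
    rw [h1] at hx0
    linarith
  · rw [abs_le]
    constructor <;> linarith [hx.1, hx.2, hy.1, hy.2]

end Pool.Agent.Helper181_Sep
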