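import Pool.Agent.Helper181_Sep.Little
import Pool.Agent.Helper181_Sep.Roots

/-!
Two close real roots of the polynomials `G q`.
-/

set_option autoImplicit false

open Polynomial

namespace Pool.Agent.Helper181_Sep

lemma aeval_P (q : ℕ) (x : ℝ) :
    aeval x (P q) = aeval x N * ∑ i ∈ Finset.range q, x ^ (28 * i) := by
  induction q with
  | zero => simp [P]
  | succ q ih =>
    rw [P, map_add, ih, map_mul, map_pow, aeval_X, Finset.sum_range_succ]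
    ring

lemma aeval_N (x : ℝ) : aeval x N = (x ^ 3 + x ^ 2 - 1) ^ 2 * ((1 - x) * (1 + x ^ 2 + 2 * x ^ 3 +
    4 * x ^ 5 + x ^ 6 + 4 * x ^ 7 + 4 * x ^ 8 + 2 * x ^ 9 + 6 * x ^ 10 + 2 * x ^ 11 + 4 * x ^ 12 +
    4 * x ^ 13 + x ^ 14 + 4 * x ^ 15 + x ^ 16 + 2 * x ^ 17 + 2 * x ^ 18 + x ^ 20)) := by
  rw [N_eq]
  simp only [map_mul, map_add, map_sub, map_pow, aeval_X, map_one, map_ofNat]

lemma S_ge (x : ℝ) (h1 : 75 / 100 ≤ x) (h2 : x ≤ 7569 / 10000) :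
    1 ≤ (1 - x) * (1 + x ^ 2 + 2 * x ^ 3 +
    4 * x ^ 5 + x ^ 6 + 4 * x ^ 7 + 4 * x ^ 8 + 2 * x ^ 9 + 6 * x ^ 10 + 2 * x ^ 11 + 4 * x ^ 12 +
    4 * x ^ 13 + x ^ 14 + 4 * x ^ 15 + x ^ 16 + 2 * x ^ 17 + 2 * x ^ 18 + x ^ 20) := by
  have hp : ∀ k : ℕ, (75 / 100 : ℝ) ^ k ≤ x ^ k := fun k => pow_le_pow_left₀ (by norm_num) h1 k
  have hx : 0 ≤ x := by linarith
  have h3 : (42 / 10 : ℝ) ≤ 1 + x ^ 2 + 2 * x ^ 3 +
    4 * x ^ 5 + x ^ 6 + 4 * x ^ 7 + 4 * x ^ 8 + 2 * x ^ 9 + 6 * x ^ 10 + 2 * x ^ 11 + 4 * x ^ 12 +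
    4 * x ^ 13 + x ^ 14 + 4 * x ^ 15 + x ^ 16 + 2 * x ^ 17 + 2 * x ^ 18 + x ^ 20 := by
    have e2 := hp 2
    have e3 := hp 3
    have e5 := hp 5
    have e6 := hp 6
    have e7 := hp 7
    have e8 := hp 8
    have e9 : 0 ≤ 2 * x ^ 9 + 6 * x ^ 10 + 2 * x ^ 11 + 4 * x ^ 12 +
      4 * x ^ 13 + x ^ 14 + 4 * x ^ 15 + x ^ 16 + 2 * x ^ 17 + 2 * x ^ 18 + x ^ 20 := by positivity
    norm_num at e2 e3 e5 e6 e7 e8
    linarith
  have h4 : (2431 / 10000 : ℝ) ≤ 1 - x := by linarith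
  calc (1 : ℝ) ≤ 2431 / 10000 * (42 / 10) := by norm_num
    _ ≤ _ := mul_le_mul h4 h3 (by norm_num) (by linarith)

lemma sum_ge (q : ℕ) (hq : 1 ≤ q) (x : ℝ) (hx : 0 ≤ x) :
    1 ≤ ∑ i ∈ Finset.range q, x ^ (28 * i) := by
  have h := Finset.single_le_sum (f := fun i => x ^ (28 * i)) (s := Finset.range q)
    (fun i _ => by positivity) (Finset.mem_range.2 (by omega : 0 < q))
  simpa using h

lemma aeval_G (q : ℕ) (x : ℝ) : aeval x (G q) =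
    x ^ (28 * q) * (x ^ 3 - x ^ 2 - x - 1) + aeval x N * ∑ i ∈ Finset.range q, x ^ (28 * i) := by
  rw [G, map_add, aeval_P, M]
  simp

lemma G_pos (q : ℕ) (hq : 1 ≤ q) (β x δ : ℝ) (hβ1 : 6 / 10 ≤ β)
    (hβ : β ^ 3 + β ^ 2 - 1 = 0) (hx0 : 75 / 100 ≤ x) (hx1 : x ≤ 7569 / 10000)
    (hd : (x - β) ^ 2 = δ ^ 2) (hδ : δ ^ 2 = (7569 / 10000) ^ (28 * q)) :
    0 < aeval x (G q) := by
  rw [aeval_G, aeval_N]
  have h1 : x ^ (28 * q) ≤ (7569 / 10000) ^ (28 * q) := pow_le_pow_left₀ (by linarith) hx1 _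
  have h2 : x ^ 3 + x ^ 2 - 1 = (x - β) * (x ^ 2 + x * β + β ^ 2 + x + β) := by
    linear_combination hβ
  have h3 : 2 ≤ x ^ 2 + x * β + β ^ 2 + x + β := by nlinarith
  have h5 : 4 * δ ^ 2 ≤ (x ^ 3 + x ^ 2 - 1) ^ 2 := by
    rw [h2, mul_pow, hd]
    have : (4 : ℝ) ≤ (x ^ 2 + x * β + β ^ 2 + x + β) ^ 2 := by nlinarith
    nlinarith [sq_nonneg δ]
  have hδ0 : 0 < δ ^ 2 := by rw [hδ]; positivity
  have hS := S_ge x hx0 hx1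
  have hg := sum_ge q hq x (by linarith)
  set S := (1 - x) * (1 + x ^ 2 + 2 * x ^ 3 +
    4 * x ^ 5 + x ^ 6 + 4 * x ^ 7 + 4 * x ^ 8 + 2 * x ^ 9 + 6 * x ^ 10 + 2 * x ^ 11 + 4 * x ^ 12 +
    4 * x ^ 13 + x ^ 14 + 4 * x ^ 15 + x ^ 16 + 2 * x ^ 17 + 2 * x ^ 18 + x ^ 20) with hSdef
  set g := ∑ i ∈ Finset.range q, x ^ (28 * i) with hgdef
  have h6 : 4 * δ ^ 2 ≤ (x ^ 3 + x ^ 2 - 1) ^ 2 * S * g := by
    calc 4 * δ ^ 2 = 4 * δ ^ 2 * 1 * 1 := by ring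
      _ ≤ (x ^ 3 + x ^ 2 - 1) ^ 2 * S * g := by gcongr
  have h7 : -(3 : ℝ) ≤ x ^ 3 - x ^ 2 - x - 1 := by
    have : 0 ≤ x ^ 3 := by positivity
    nlinarith
  have h8 : (0 : ℝ) ≤ x ^ (28 * q) := by positivity
  rw [← hδ] at h1
  have h9 : -(3 * δ ^ 2) ≤ x ^ (28 * q) * (x ^ 3 - x ^ 2 - x - 1) := by
    calc -(3 * δ ^ 2) ≤ -(3 * x ^ (28 * q)) := by linarith
      _ = x ^ (28 * q) * (-3) := by ring
      _ ≤ _ := mul_le_mul_of_nonneg_left h7 h8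
  linarith

lemma G_roots (q : ℕ) (hq : 2 ≤ q) :
    ∃ x y : ℝ, x ≠ y ∧ aeval x (G q) = 0 ∧ aeval y (G q) = 0 ∧
      |x - y| ≤ 2 * (87 / 100) ^ (28 * q) := by
  obtain ⟨β, hβ1, hβ2, hβ⟩ := mu_root
  set δ : ℝ := (87 / 100) ^ (28 * q) with hδ
  have hδ0 : 0 < δ := by positivity
  have hδ1 : δ ≤ 19 / 10000 := by
    calc δ ≤ (87 / 100) ^ 50 := pow_le_pow_of_le_one (by norm_num) (by norm_num) (by omega)
      _ ≤ 19 / 10000 := by norm_num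
  have hδ2 : δ ^ 2 = (7569 / 10000) ^ (28 * q) := by
    rw [hδ, ← pow_mul, mul_comm, pow_mul]; norm_num
  have hcont : Continuous (fun x : ℝ => aeval x (G q)) := (G q).continuous_aeval
  have hneg : aeval β (G q) < 0 := by
    rw [aeval_G, aeval_N, hβ]
    have h1 : (0 : ℝ) < β ^ (28 * q) := by positivity
    have h2 : β ^ 3 - β ^ 2 - β - 1 < 0 := by nlinarith
    have h3 : β ^ (28 * q) * (β ^ 3 - β ^ 2 - β - 1) < 0 := mul_neg_of_pos_of_neg h1 h2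
    simpa using h3
  have hpos1 : 0 < aeval (β - δ) (G q) :=
    G_pos q (by omega) β (β - δ) δ (by linarith) hβ (by linarith) (by linarith) (by ring) hδ2
  have hpos2 : 0 < aeval (β + δ) (G q) :=
    G_pos q (by omega) β (β + δ) δ (by linarith) hβ (by linarith) (by linarith) (by ring) hδ2
  obtain ⟨x, hx, hx0⟩ := intermediate_value_Icc' (show β - δ ≤ β by linarith)
    hcont.continuousOn (show (0 : ℝ) ∈ Set.Icc (aeval β (G q)) (aeval (β - δ) (G q)) from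
      ⟨hneg.le, hpos1.le⟩)
  obtain ⟨y, hy, hy0⟩ := intermediate_value_Icc (show β ≤ β + δ by linarith)
    hcont.continuousOn (show (0 : ℝ) ∈ Set.Icc (aeval β (G q)) (aeval (β + δ) (G q)) from
      ⟨hneg.le, hpos2.le⟩)
  refine ⟨x, y, ?_, hx0, hy0, ?_⟩
  · intro h
    have h1 : x = β := le_antisymm hx.2 (h ▸ hy.1)
    rw [h1] at hx0
    simp only at hx0
    linarith
  · rw [abs_le]
    constructor <;> linarith [hx.1, hx.2, hy.1, hy.2]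

end Pool.Agent.Helper181_Sep
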