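import Mathlib

/-!
The polynomials `X ^ n - c R` with `R = (X ^ 3 + X ^ 2 - 1) ^ 2 (X ^ 2 - X + 1)`.
-/

set_option autoImplicit false

open Polynomial

namespace Pool.Agent.Helper181_Sep

/-- A polynomial of height one with a double root in `(0, 1)`. -/
noncomputable def R : ℤ[X] := X ^ 8 + X ^ 7 - X ^ 5 + X ^ 4 - X ^ 2 - X + 1

lemma R_eq : R = (X ^ 3 + X ^ 2 - 1) ^ 2 * (X ^ 2 - X + 1) := by
  unfold R; ring

lemma R_natDegree : R.natDegree ≤ 8 := by
  unfold R; compute_degree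

lemma R_coeff (i : ℕ) : |R.coeff i| ≤ 1 := by
  rcases Nat.lt_or_ge 8 i with h | h
  · rw [coeff_eq_zero_of_natDegree_lt (lt_of_le_of_lt R_natDegree h)]; simp
  · unfold R
    simp only [coeff_add, coeff_sub, coeff_X_pow, coeff_X, coeff_one]
    interval_cases i <;> norm_num

lemma R_coeff_zero : R.coeff 0 = 1 := by
  unfold R
  simp [coeff_X_pow]

/-- The polynomial `X ^ n - c R`. -/
noncomputable def F (n : ℕ) (c : ℤ) : ℤ[X] := X ^ n - C c * R

lemma cR_degree (n : ℕ) (hn : 9 ≤ n) (c : ℤ) : (C c * R).degree < (n : WithBot ℕ) := by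
  have h1 : (C c * R).natDegree ≤ 8 := (natDegree_C_mul_le c R).trans R_natDegree
  have h2 : (C c * R).degree ≤ (8 : ℕ) := natDegree_le_iff_degree_le.1 h1
  exact lt_of_le_of_lt h2 (by exact_mod_cast (by omega : 8 < n))

lemma F_monic (n : ℕ) (hn : 9 ≤ n) (c : ℤ) : (F n c).Monic :=
  monic_X_pow_sub (cR_degree n hn c)

lemma F_natDegree (n : ℕ) (hn : 9 ≤ n) (c : ℤ) : (F n c).natDegree = n := by
  unfold F
  rw [natDegree_sub_eq_left_of_natDegree_lt, natDegree_X_pow]
  rw [natDegree_X_pow]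
  exact lt_of_le_of_lt ((natDegree_C_mul_le c R).trans R_natDegree) (by omega)

lemma F_coeff_lt (n : ℕ) (c : ℤ) (i : ℕ) (hi : i ≠ n) : (F n c).coeff i = -(c * R.coeff i) := by
  unfold F
  rw [coeff_sub, coeff_X_pow, if_neg hi, coeff_C_mul, zero_sub]

lemma F_coeff (n : ℕ) (hn : 9 ≤ n) (c : ℤ) (hc : 1 ≤ c) (i : ℕ) : |(F n c).coeff i| ≤ c := by
  by_cases hi : i = n
  · subst hi
    have h1 := F_monic i hn c
    have h2 : (F i c).coeff i = 1 := by
      have := h1.coeff_natDegree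
      rwa [F_natDegree i hn c] at this
    rw [h2]; simpa using hc
  · rw [F_coeff_lt n c i hi, abs_neg, abs_mul, abs_of_nonneg (by omega : (0 : ℤ) ≤ c)]
    exact mul_le_of_le_one_right (by omega) (R_coeff i)

lemma F_irreducible (n : ℕ) (hn : 9 ≤ n) : Irreducible (F n 2) := by
  have hm := F_monic n hn 2
  have hp : (Ideal.span {(2 : ℤ)}).IsPrime := by
    rw [Ideal.span_singleton_prime (by norm_num)]
    exact Int.prime_two
  apply irreducible_of_eisenstein_criterion hp
  · rw [hm.leadingCoeff, Ideal.mem_span_singleton]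
    norm_num
  · intro i hi
    rw [degree_eq_natDegree hm.ne_zero, F_natDegree n hn 2] at hi
    have hi' : i < n := by exact_mod_cast hi
    rw [F_coeff_lt n 2 i hi'.ne, Ideal.mem_span_singleton]
    exact ⟨-(R.coeff i), by ring⟩
  · rw [degree_eq_natDegree hm.ne_zero, F_natDegree n hn 2]
    exact_mod_cast (by omega : 0 < n)
  · rw [F_coeff_lt n 2 0 (by omega), R_coeff_zero, Ideal.span_singleton_pow,
      Ideal.mem_span_singleton]
    norm_num
  · exact hm.isPrimitive

lemma F_separable_two (n : ℕ) (hn : 9 ≤ n) : ((F n 2).map (algebraMap ℤ ℂ)).Separable := by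
  have hm := F_monic n hn 2
  have h1 : Irreducible ((F n 2).map (Int.castRingHom ℚ)) :=
    (IsPrimitive.Int.irreducible_iff_irreducible_map_cast hm.isPrimitive).1 (F_irreducible n hn)
  have h2 : ((F n 2).map (Int.castRingHom ℚ)).Separable := h1.separable
  have h3 := h2.map (f := algebraMap ℚ ℂ)
  rw [Polynomial.map_map] at h3
  have h4 : (algebraMap ℚ ℂ).comp (Int.castRingHom ℚ) = algebraMap ℤ ℂ := RingHom.ext_int _ _
  rwa [h4] at h3

/-- One half is not an algebraic integer. -/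
lemma half_not_integral : ¬ IsIntegral ℤ ((1 : ℂ) / 2) := by
  intro h
  have h1 : IsIntegral ℤ ((1 : ℚ) / 2) := by
    have h2 : ((1 : ℂ) / 2) = algebraMap ℚ ℂ (1 / 2) := by simp
    rw [h2] at h
    exact (isIntegral_algebraMap_iff (algebraMap ℚ ℂ).injective).1 h
  obtain ⟨k, hk⟩ := IsIntegrallyClosed.isIntegral_iff.1 h1
  have h3 : (2 : ℚ) * k = 1 := by
    have : (k : ℚ) = 1 / 2 := by simpa using hk
    rw [this]; norm_num
  have h4 : (2 : ℤ) * k = 1 := by exact_mod_cast h3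
  omega

lemma aeval_R (α : ℂ) : aeval α R = (α ^ 3 + α ^ 2 - 1) ^ 2 * (α ^ 2 - α + 1) := by
  rw [R_eq]; simp

lemma no_double_root (k : ℕ) (hk : 1 ≤ k) (α : ℂ) (h0 : aeval α (F (2 * k) 1) = 0) (hint : IsIntegral ℤ α)
    (h1 : aeval α (derivative (F (2 * k) 1)) = 0) : False := by
  have e0 : α ^ (2 * k) = (α ^ 3 + α ^ 2 - 1) ^ 2 * (α ^ 2 - α + 1) := by
    have := h0
    unfold F at this
    rw [map_sub, map_mul, aeval_R] at this
    simp only [map_pow, aeval_X, map_one, one_mul] at this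
    linear_combination this
  have e1 : (2 * k : ℂ) * α ^ (2 * k - 1) =
      8 * α ^ 7 + 7 * α ^ 6 - 5 * α ^ 4 + 4 * α ^ 3 - 2 * α - 1 := by
    have := h1
    unfold F R at this
    simp only [derivative_X_pow, derivative_X, derivative_one, map_sub, map_add, map_mul, map_pow,
      aeval_X, map_one, map_natCast, one_mul, add_zero] at this
    push_cast at this
    linear_combination this
  set β : ℂ := α ^ (2 * k - 1) - (α ^ 7 + α ^ 6 - α ^ 4 + α ^ 3 - α - 1) with hβ
  have hαβ : α * β = 1 := by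
    have h2 : α * α ^ (2 * k - 1) = α ^ (2 * k) := by
      rw [← pow_succ']; congr 1; omega
    rw [hβ, mul_sub, h2, e0]
    ring
  have hhalf : (1 : ℂ) / 2 = (k * α ^ (2 * k - 1) +
      (-4 * α ^ 7 - 3 * α ^ 6 + α ^ 5 + 3 * α ^ 4 - 3 * α ^ 3 - α ^ 2 + α + 1)) *
      (α ^ 2 - α + 1) * β ^ (2 * k) := by
    have h3 : (k : ℂ) * α ^ (2 * k - 1) =
        (8 * α ^ 7 + 7 * α ^ 6 - 5 * α ^ 4 + 4 * α ^ 3 - 2 * α - 1) / 2 := by
      rw [← e1]; ring
    have h4 : (α * β) ^ (2 * k) = 1 := by rw [hαβ, one_pow]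
    rw [mul_pow, e0] at h4
    rw [h3]
    linear_combination (-1 / 2 : ℂ) * h4
  apply half_not_integral
  rw [hhalf]
  have hβi : IsIntegral ℤ β := by
    rw [hβ]
    have := isIntegral_one (R := ℤ) (B := ℂ)
    exact (hint.pow _).sub (((((((hint.pow 7).add (hint.pow 6)).sub (hint.pow 4)).add
      (hint.pow 3)).sub hint).sub this))
  have hk' : IsIntegral ℤ (k : ℂ) := by
    have := isIntegral_algebraMap (R := ℤ) (A := ℂ) (x := (k : ℤ))
    simpa using this
  have hz : ∀ m : ℤ, IsIntegral ℤ (m : ℂ) := fun m => by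
    have := isIntegral_algebraMap (R := ℤ) (A := ℂ) (x := m)
    simpa using this
  have h4 : IsIntegral ℤ (-4 : ℂ) := by have := hz (-4); simpa using this
  have h3 : IsIntegral ℤ (3 : ℂ) := by have := hz 3; simpa using this
  have h1' : IsIntegral ℤ (1 : ℂ) := isIntegral_one
  refine IsIntegral.mul (IsIntegral.mul ?_ ?_) (hβi.pow _)
  · refine (hk'.mul (hint.pow _)).add ?_
    exact (((((((h4.mul (hint.pow 7)).sub (h3.mul (hint.pow 6))).add (hint.pow 5)).add
      (h3.mul (hint.pow 4))).sub (h3.mul (hint.pow 3))).sub (hint.pow 2)).add hint).add h1'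
  · exact ((hint.pow 2).sub hint).add h1'

lemma F_separable_one (k : ℕ) (hk : 5 ≤ k) :
    ((F (2 * k) 1).map (algebraMap ℤ ℂ)).Separable := by
  have hm := F_monic (2 * k) (by omega) 1
  unfold Polynomial.Separable
  rw [isCoprime_iff_aeval_ne_zero_of_isAlgClosed ℂ ℂ]
  intro α
  by_contra hcon
  push Not at hcon
  obtain ⟨h1, h2⟩ := hcon
  rw [aeval_map_algebraMap] at h1
  rw [derivative_map, aeval_map_algebraMap] at h2
  exact no_double_root k (by omega) α h1 ⟨F (2 * k) 1, hm, by rwa [← aeval_def]⟩ h2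

lemma XF_separable (k : ℕ) (hk : 5 ≤ k) :
    ((X * F (2 * k) 1).map (algebraMap ℤ ℂ)).Separable := by
  rw [Polynomial.map_mul, map_X]
  apply separable_X.mul (F_separable_one k hk)
  rw [isCoprime_iff_aeval_ne_zero_of_isAlgClosed ℂ ℂ]
  intro α
  by_cases hα : α = 0
  · right
    rw [hα, aeval_map_algebraMap, aeval_def, eval₂_at_zero, F_coeff_lt _ _ _ (by omega),
      R_coeff_zero]
    simp
  · left
    simpa using hα

end Pool.Agent.Helper181_Sep
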